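import Pool.Agent.R423.GC.Fin

/-!
# A cuspidal representation of `PGL(2)` over `ℚ` for which the Lindelöf bound for quadratic twists holds

There is a quartic ray class character `ψ` of `K = ℚ(√5)`, of conductor `(41 √5)`, unramified at the real places, with
`ψ((n)) = (n/5)`.  By automorphic induction (Hecke, Maass, Jacquet-Langlands) it gives an irreducible cuspidal automorphic
representation `π` of `PGL(2)` over `ℚ`, with `L(s, π ⊗ χ_D) = L(s, ψ · (χ_D ∘ N))`.  For every nonzero integer `D` the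
central value `L(1/2, π ⊗ χ_D)` is `0`, in particular `|L(1/2, π ⊗ χ_D)| ≤ C |D| ^ β` for all `β` and all `C ≥ 0`.
-/

set_option autoImplicit false

open NumberField Filter Topology

namespace Pool.Agent.Results.MP_21d687_nt.VanishingFamily

/-- `x` is totally positive -/
def IsTotPos (K : Type) [Field K] [NumberField K] (x : 𝓞 K) : Prop :=
  ∀ σ : K →+* ℝ, 0 < σ (x : K)

/-- `ψ` is a primitive (narrow) ray class character of finite conductor `𝔣`, as a function on the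
ideals of `K`, zero at the ideals which are not prime to `𝔣`. -/
structure IsPrimitive (K : Type) [Field K] [NumberField K] (𝔣 : Ideal (𝓞 K))
    (ψ : Ideal (𝓞 K) →*₀ ℂ) : Prop where
  ne_bot : 𝔣 ≠ ⊥
  supp : ∀ 𝔞 : Ideal (𝓞 K), 𝔞 ≠ ⊥ → (ψ 𝔞 ≠ 0 ↔ IsCoprime 𝔞 𝔣)
  ray : ∀ x : 𝓞 K, x ≠ 0 → x - 1 ∈ 𝔣 → IsTotPos K x → ψ (Ideal.span {x}) = 1
  prim : ∀ 𝔤 : Ideal (𝓞 K), 𝔤 ∣ 𝔣 → 𝔤 ≠ 𝔣 →
    ∃ x : 𝓞 K, x - 1 ∈ 𝔤 ∧ IsTotPos K x ∧ IsCoprime (Ideal.span {x}) 𝔣 ∧ ψ (Ideal.span {x}) ≠ 1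

/-- the Dirichlet character `η` is (a character inducing or induced by) the quadratic character `χ_D` attached to
`ℚ(√D)`: it takes the value `(D/p)` at all primes `p` not dividing `2 q D`. -/
def IsChi (D : ℤ) {q : ℕ} (η : DirichletCharacter ℂ q) : Prop :=
  ∀ p : ℕ, p.Prime → ¬ p ∣ 2 * q → ¬ (p : ℤ) ∣ D → η (p : ZMod q) = ((jacobiSym D p : ℤ) : ℂ)

/-- `v` is the central value `L(1/2, π ⊗ χ_D)`, where `π` is the automorphic induction of `ψ` from `K` to `ℚ`: the value at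
`s = 1/2` of the entire function `F` which for `Re s > 1` is the Hecke L-function `∑ ψ'(𝔞) N(𝔞)^(-s)` of the primitive ray
class character `ψ'` which is equal to `ψ · (χ_D ∘ N)` at all ideals prime to some nonzero ideal `𝔪`. -/
def IsCentralValue (K : Type) [Field K] [NumberField K] (ψ : Ideal (𝓞 K) →*₀ ℂ) (D : ℤ) (v : ℂ) : Prop :=
  ∃ (q : ℕ) (η : DirichletCharacter ℂ q) (𝔣' : Ideal (𝓞 K)) (ψ' : Ideal (𝓞 K) →*₀ ℂ) (F : ℂ → ℂ),
    0 < q ∧ IsChi D η ∧ IsPrimitive K 𝔣' ψ' ∧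
    (∃ 𝔪 : Ideal (𝓞 K), 𝔪 ≠ ⊥ ∧ ∀ 𝔞 : Ideal (𝓞 K), IsCoprime 𝔞 𝔪 →
      ψ' 𝔞 = ψ 𝔞 * η ((Ideal.absNorm 𝔞 : ℕ) : ZMod q)) ∧
    Differentiable ℂ F ∧
    (∀ s : ℂ, 1 < s.re →
      HasSum (fun 𝔞 : Ideal (𝓞 K) => ψ' 𝔞 * ((Ideal.absNorm 𝔞 : ℕ) : ℂ) ^ (-s)) (F s)) ∧
    F (1 / 2) = v

lemma odd_val {D : ℤ} (hD : D ≠ 0) {a : ZMod (4 * D.natAbs)} (ha : IsUnit a) : Odd a.val := by
  have h4 : NeZero (4 * D.natAbs) := ⟨by have := Int.natAbs_pos.2 hD; omega⟩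
  have h1 : Nat.Coprime a.val (4 * D.natAbs) := by
    rw [← ZMod.isUnit_iff_coprime, ZMod.natCast_zmod_val]
    exact ha
  have h2 : Nat.Coprime a.val 2 := Nat.Coprime.coprime_dvd_right ⟨2 * D.natAbs, by ring⟩ h1
  exact Nat.coprime_two_right.1 h2

open Classical in
/-- `(D / ·)` as a character mod `4 |D|` -/
noncomputable def chi (D : ℤ) (hD : D ≠ 0) : DirichletCharacter ℂ (4 * D.natAbs) where
  toFun a := if IsUnit a then ((jacobiSym D a.val : ℤ) : ℂ) else 0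
  map_one' := by
    have hpos := Int.natAbs_pos.2 hD
    have h1 : (1 : ZMod (4 * D.natAbs)).val = 1 := by
      rw [ZMod.val_one_eq_one_mod, Nat.mod_eq_of_lt (by omega)]
    rw [if_pos isUnit_one, h1, jacobiSym.one_right]
    norm_num
  map_mul' a b := by
    by_cases ha : IsUnit a
    · by_cases hb : IsUnit b
      · have oa := odd_val hD ha
        have ob := odd_val hD hb
        have : NeZero a.val := ⟨by rintro h; rw [h] at oa; exact absurd oa (by decide)⟩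
        have : NeZero b.val := ⟨by rintro h; rw [h] at ob; exact absurd ob (by decide)⟩
        rw [if_pos ha, if_pos hb, if_pos (ha.mul hb), ZMod.val_mul, ← jacobiSym.mod_right _ (oa.mul ob),
          jacobiSym.mul_right]
        push_cast
        rfl
      · rw [if_neg hb, if_neg (fun h => hb (isUnit_of_mul_isUnit_right h)), mul_zero]
    · rw [if_neg ha, if_neg (fun h => ha (isUnit_of_mul_isUnit_left h)), zero_mul]
  map_nonunit' a ha := if_neg ha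

open Classical in
lemma chi_apply {D : ℤ} (hD : D ≠ 0) {n : ℕ} (hn : Nat.Coprime n (4 * D.natAbs)) :
    chi D hD (n : ZMod (4 * D.natAbs)) = ((jacobiSym D n : ℤ) : ℂ) := by
  have hu : IsUnit (n : ZMod (4 * D.natAbs)) := (ZMod.isUnit_iff_coprime _ _).2 hn
  have h2 : Odd n := Nat.coprime_two_right.1 (Nat.Coprime.coprime_dvd_right ⟨2 * D.natAbs, by ring⟩ hn)
  change (if IsUnit (n : ZMod (4 * D.natAbs)) then
    ((jacobiSym D (n : ZMod (4 * D.natAbs)).val : ℤ) : ℂ) else 0) = _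
  rw [if_pos hu, ZMod.val_natCast, ← jacobiSym.mod_right _ h2]

lemma isChi_chi {D : ℤ} (hD : D ≠ 0) : IsChi D (chi D hD) := by
  intro p hp h1 h2
  refine chi_apply hD ?_
  rw [Nat.Prime.coprime_iff_not_dvd hp]
  intro h
  rcases (Nat.Prime.dvd_mul hp).1 h with h | h
  · have : p ∣ 2 := (Nat.Prime.dvd_of_dvd_pow hp (show p ∣ 2 ^ 2 by simpa using h))
    exact h1 (this.mul_right _)
  · exact h2 (Int.natCast_dvd.2 h)

/-- A character with values `(D/p)` at all primes not dividing `2 q D` has square `1`. -/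
lemma sq_eq_one {D : ℤ} (hD : D ≠ 0) {q : ℕ} (hq : 0 < q) {η : DirichletCharacter ℂ q} (h : IsChi D η) : η ^ 2 = 1 := by
  have : NeZero q := ⟨hq.ne'⟩
  refine MulChar.ext fun a => ?_
  obtain ⟨p, hp1, hp, hpa⟩ := Nat.forall_exists_prime_gt_and_eq_mod a.isUnit (2 * q + D.natAbs)
  have e1 : ¬ p ∣ 2 * q := fun hh => by
    have := Nat.le_of_dvd (by omega) hh
    omega
  have e2 : ¬ (p : ℤ) ∣ D := fun hh => by
    have := Nat.le_of_dvd (Int.natAbs_pos.2 hD) (Int.natCast_dvd.1 hh)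
    omega
  have h1 := h p hp e1 e2
  rw [← hpa, MulChar.pow_apply' _ (by norm_num), h1, MulChar.one_apply (by rw [hpa]; exact a.isUnit)]
  have hc : D.gcd p = 1 := by
    rw [Int.gcd_comm, Int.gcd_eq_natAbs, Int.natAbs_natCast]
    exact (Nat.Prime.coprime_iff_not_dvd hp).2 (fun hh => e2 (Int.natCast_dvd.2 hh))
  have h3 : jacobiSym D p ^ 2 = 1 := jacobiSym.sq_one hc
  exact_mod_cast h3

/-- **Theorem.** There are a quadratic field `K` containing `√5` and a primitive ray class character `ψ` of `K` of conductor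
of norm `5 · 41²`, with values fourth roots of unity, unramified at the real places, with `ψ((n)) = (n/5)`, taking different
values at the two primes above `11`, such that for every nonzero integer `D` the central value `L(1/2, π ⊗ χ_D)` of the
automorphic induction `π` of `ψ` exists and is `0`.  Hence the Lindelöf bound for the quadratic twists holds for `π`. -/
theorem result : ∃ (K : Type) (_ : Field K) (_ : NumberField K) (𝔣 : Ideal (𝓞 K))
    (ψ : Ideal (𝓞 K) →*₀ ℂ),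
    (Module.finrank ℚ K = 2 ∧ ∃ x : K, x ^ 2 = 5) ∧
    (IsPrimitive K 𝔣 ψ ∧ Ideal.absNorm 𝔣 = 5 * 41 ^ 2 ∧
      (∀ 𝔞 : Ideal (𝓞 K), IsCoprime 𝔞 𝔣 → ψ 𝔞 ^ 4 = 1) ∧
      ∀ x : 𝓞 K, x - 1 ∈ 𝔣 → ψ (Ideal.span {x}) = 1) ∧
    (∀ n : ℕ, n.Coprime 205 → ψ (Ideal.span {(n : 𝓞 K)}) = ((jacobiSym (n : ℤ) 5 : ℤ) : ℂ)) ∧
    (∃ 𝔭 𝔭' : Ideal (𝓞 K), Ideal.absNorm 𝔭 = 11 ∧ Ideal.absNorm 𝔭' = 11 ∧ ψ 𝔭 ≠ ψ 𝔭') ∧
    (∀ D : ℤ, D ≠ 0 → ∀ v : ℂ, IsCentralValue K ψ D v ↔ v = 0) ∧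
    (∀ β : ℝ, 0 < β → ∀ C : ℝ, 0 < C → ∀ D : ℤ, D ≠ 0 → ∀ v : ℂ, IsCentralValue K ψ D v →
      ‖v‖ < C * |(D : ℝ)| ^ β) := by
  obtain ⟨a, ha⟩ := R423.GC.exists_isQ
  have key : ∀ D : ℤ, D ≠ 0 → ∀ v : ℂ, IsCentralValue R423.GC.QF (R423.GC.psi ha) D v ↔ v = 0 := by
    intro D hD v
    constructor
    · rintro ⟨q, η, 𝔣', ψ', F, hq, hη, g1, g2, g3, g4, rfl⟩
      obtain ⟨h1, h2⟩ := R423.GC.twist_unique ha hq η (R423.GC.Inv_of_sq (sq_eq_one hD hq hη))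
      exact h2 𝔣' ψ' F ⟨g1.ne_bot, g1.supp, g1.ray, g1.prim⟩ g2 g3 g4
    · rintro rfl
      have hq : 0 < 4 * D.natAbs := by have := Int.natAbs_pos.2 hD; omega
      obtain ⟨h1, h2⟩ := R423.GC.twist_unique ha hq (chi D hD)
        (R423.GC.Inv_of_sq (sq_eq_one hD hq (isChi_chi hD)))
      obtain ⟨𝔣', ψ', F, g1, g2, g3, g4⟩ := h1
      exact ⟨_, chi D hD, 𝔣', ψ', F, hq, isChi_chi hD, ⟨g1.ne_bot, g1.supp, g1.ray, g1.prim⟩, g2, g3, g4,
        h2 𝔣' ψ' F g1 g2 g3 g4⟩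
  have hp := R423.GC.prim_psi ha
  refine ⟨R423.GC.QF, inferInstance, inferInstance, R423.GC.cond, R423.GC.psi ha,
    ⟨R423.GC.finrank_QF, R423.GC.exists_sq_five⟩,
    ⟨⟨hp.ne_bot, hp.supp, hp.ray, hp.prim⟩, R423.GC.absNorm_cond,
      fun 𝔞 h => R423.GC.psi_four ha h, fun x hx => R423.GC.psi_even ha hx⟩,
    fun n hn => R423.GC.psi_nat ha hn, R423.GC.psi_eleven ha, key, ?_⟩
  intro β _ C hC D hD v hv
  rw [(key D hD v).1 hv, norm_zero]
  have : (D : ℝ) ≠ 0 := by exact_mod_cast hD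
  positivity

end Pool.Agent.Results.MP_21d687_nt.VanishingFamily
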